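import Pool.Agent.R902.PowBinom

namespace Pool.Agent.Results.MP_9b2749_nt.MthPowers

open Finset Pool.Agent.R902

/-- The generalized binomial coefficient `x(x-1)...(x-k+1)/k!` of a rational number `x`. -/
def binom (x : ℚ) (k : ℕ) : ℚ := (∏ i ∈ range k, (x - i)) / (k.factorial : ℚ)

/-- The integer `∏_{i<k} (m i - r) · m^(p-k) · ((p-1)!/k!)` -/
def X (m : ℕ) (r : ℤ) (p k : ℕ) : ℤ :=
  (∏ i ∈ range k, ((m : ℤ) * i - r)) * ((m : ℤ) ^ (p - k) *
    ((p - 1).descFactorial (p - 1 - k) : ℤ))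

theorem desc_eq (p k : ℕ) (hk : k < p) :
    k.factorial * (p - 1).descFactorial (p - 1 - k) = (p - 1).factorial := by
  have := Nat.factorial_mul_descFactorial (show p - 1 - k ≤ p - 1 by omega)
  rwa [show p - 1 - (p - 1 - k) = k by omega] at this

theorem term_cleared (m : ℕ) (r : ℤ) (p k : ℕ) (hm : m ≠ 0) (hk : k < p) :
    ((-1) ^ (k * m) * binom ((r : ℚ) / m) k ^ m) * (((m : ℚ) ^ p * ((p - 1).factorial : ℚ)) ^ m)
      = ((X m r p k : ℤ) : ℚ) ^ m := by
  rw [pow_mul, ← mul_pow, ← mul_pow]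
  congr 1
  rw [X, binom]
  have hm0 : (m : ℚ) ≠ 0 := by exact_mod_cast hm
  have h1 : (∏ i ∈ range k, ((m : ℚ) * i - r)) = (-1) ^ k * (m : ℚ) ^ k *
      ∏ i ∈ range k, ((r : ℚ) / m - i) := by
    have h0 : (∏ i ∈ range k, ((m : ℚ) * i - r))
        = ∏ i ∈ range k, ((-(m : ℚ)) * ((r : ℚ) / m - i)) := by
      refine Finset.prod_congr rfl fun i _ => ?_
      field_simp
      ring
    rw [h0, Finset.prod_mul_distrib, Finset.prod_const, Finset.card_range, neg_pow]
  have hd : (k.factorial : ℚ) * ((p - 1).descFactorial (p - 1 - k) : ℚ)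
      = ((p - 1).factorial : ℚ) := by exact_mod_cast desc_eq p k hk
  have hk0 : (k.factorial : ℚ) ≠ 0 := by positivity
  push_cast
  rw [h1, ← hd]
  have h2 : (m : ℚ) ^ p = (m : ℚ) ^ k * (m : ℚ) ^ (p - k) := by
    rw [← pow_add]; congr 1; omega
  rw [h2]
  field_simp

/-- Let `m > 2`, let `p` be an odd prime with `p ∤ m`, `r < p`, `p ≡ r (mod m)`, with `m` and `r` of
different parities and `m + r ≥ 2` (which holds if `r ≥ -m/2`).  Then
`∑_{k<p} (-1)^{km} C(r/m,k)^m ≡ 0 (mod p^3)`. -/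
theorem result (m : ℕ) (r : ℤ) (p : ℕ) (hp : p.Prime) (hp2 : p ≠ 2) (hm : 2 < m) (hpm : ¬ p ∣ m)
    (hrp : r < p) (hpar : ¬ Even ((m : ℤ) - r)) (hmod : (m : ℤ) ∣ (p : ℤ) - r)
    (hr : 2 ≤ (m : ℤ) + r) :
    (p : ℤ) ^ 3 ∣ (∑ k ∈ range p, (-1) ^ (k * m) * binom ((r : ℚ) / m) k ^ m).num := by
  have hpf : Fact p.Prime := ⟨hp⟩
  -- p - r = m t with t = s + 1
  obtain ⟨t, ht⟩ := hmod
  have ht1 : 1 ≤ t := by
    by_contra h
    push Not at h
    have h0 : t ≤ 0 := by omega
    have : (m : ℤ) * t ≤ 0 := mul_nonpos_of_nonneg_of_nonpos (by positivity) h0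
    omega
  obtain ⟨s, hs⟩ : ∃ s : ℕ, t = (s : ℤ) + 1 := ⟨(t - 1).toNat, by omega⟩
  have hr' : r = (p : ℤ) - m * ((s : ℤ) + 1) := by rw [← hs]; omega
  have hms : m * s + 2 ≤ p := by
    zify
    rw [hr'] at hr
    nlinarith
  have hodd : ¬ Even (p : ℤ) := by
    intro h
    have h1 : Even p := by exact_mod_cast h
    exact hp2 ((Nat.Prime.even_iff hp).1 h1)
  have he : Even (m * s) := by
    have h1 : ¬ Even ((m : ℤ) - ((p : ℤ) - m * ((s : ℤ) + 1))) := by rwa [← hr']
    have h2 : Even (((m * s : ℕ)) : ℤ) := by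
      rw [show (m : ℤ) - ((p : ℤ) - m * ((s : ℤ) + 1)) = ((m * s : ℕ) : ℤ) + 2 * m - p by
        push_cast; ring] at h1
      rw [Int.even_sub, Int.even_add] at h1
      by_contra h3
      apply h1
      have h4 : Even (2 * (m : ℤ)) := even_two_mul _
      simp only [h4, iff_true, h3, hodd]
    exact_mod_cast h2
  have hsum := PowBinom.sum_A p m s hp2 (by omega) hpm hms he
  -- the cleared integer is divisible by p^3
  have hdvd : (p : ℤ) ^ 3 ∣ ∑ k ∈ range p, X m r p k ^ m := by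
    have h1 := (ZMod.intCast_zmod_eq_zero_iff_dvd (∑ k ∈ range p, X m r p k ^ m) (p ^ 3)).1 (by
      push_cast
      have h2 : ∀ k ∈ range p, ((X m r p k : ℤ) : ZMod (p ^ 3)) ^ m
          = ((m : ZMod (p ^ 3)) ^ p * ((p - 1).factorial : ZMod (p ^ 3))) ^ m *
            PowBinom.A p m s k ^ m := by
        intro k hk
        have hk := Finset.mem_range.1 hk
        rw [← mul_pow]
        congr 1
        have hmi := PowBinom.m_inv p m hpm
        have hf := PowBinom.factorial_inv p k hk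
        have hd' : (k.factorial : ZMod (p ^ 3)) *
            ((p - 1).descFactorial (p - 1 - k) : ZMod (p ^ 3))
            = ((p - 1).factorial : ZMod (p ^ 3)) := by
          rw [← Nat.cast_mul, desc_eq p k hk]
        have hprod : ∏ i ∈ range k, ((m : ZMod (p ^ 3)) * (i : ZMod (p ^ 3)) -
            (r : ZMod (p ^ 3))) = (m : ZMod (p ^ 3)) ^ k *
            ∏ i ∈ range k, (((s + i + 1 : ℕ) : ZMod (p ^ 3)) -
              (p : ZMod (p ^ 3)) * (m : ZMod (p ^ 3))⁻¹) := by
          have h0 : (m : ZMod (p ^ 3)) ^ k = ∏ _i ∈ range k, (m : ZMod (p ^ 3)) := by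
            rw [Finset.prod_const, Finset.card_range]
          rw [h0, ← Finset.prod_mul_distrib]
          refine Finset.prod_congr rfl fun i _ => ?_
          rw [hr']
          push_cast
          linear_combination (p : ZMod (p ^ 3)) * hmi
        rw [X, PowBinom.A, Int.cast_mul, Int.cast_mul, Int.cast_prod, Int.cast_pow]
        simp only [Int.cast_sub, Int.cast_mul, Int.cast_natCast]
        rw [hprod]
        have hpk : (m : ZMod (p ^ 3)) ^ p = (m : ZMod (p ^ 3)) ^ k *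
            (m : ZMod (p ^ 3)) ^ (p - k) := by
          rw [← pow_add]; congr 1; omega
        rw [hpk, ← hd']
        generalize ∏ i ∈ range k, (((s + i + 1 : ℕ) : ZMod (p ^ 3)) -
              (p : ZMod (p ^ 3)) * (m : ZMod (p ^ 3))⁻¹) = Y
        linear_combination (-(m : ZMod (p ^ 3)) ^ k * (m : ZMod (p ^ 3)) ^ (p - k) *
          ((p - 1).descFactorial (p - 1 - k) : ZMod (p ^ 3)) * Y) * hf
      rw [Finset.sum_congr rfl h2, ← Finset.mul_sum, hsum, mul_zero])
    exact_mod_cast h1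
  -- transfer to the rational number
  set S : ℚ := ∑ k ∈ range p, (-1) ^ (k * m) * binom ((r : ℚ) / m) k ^ m with hS
  have h2 : S * (((m : ℚ) ^ p * ((p - 1).factorial : ℚ)) ^ m)
      = ((∑ k ∈ range p, X m r p k ^ m : ℤ) : ℚ) := by
    rw [hS, Finset.sum_mul]
    push_cast
    exact Finset.sum_congr rfl fun k hk =>
      term_cleared m r p k (by omega) (Finset.mem_range.1 hk)
  have h3 : S.num * ((m : ℤ) ^ p * ((p - 1).factorial : ℤ)) ^ m
      = (∑ k ∈ range p, X m r p k ^ m) * S.den := by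
    have h4 : (S.num : ℚ) = S * S.den := (Rat.mul_den_eq_num _).symm
    have h5 : ((S.num * ((m : ℤ) ^ p * ((p - 1).factorial : ℤ)) ^ m : ℤ) : ℚ)
        = (((∑ k ∈ range p, X m r p k ^ m) * S.den : ℤ) : ℚ) := by
      rw [Int.cast_mul, Int.cast_mul, ← h2]
      push_cast
      rw [h4]
      ring
    exact_mod_cast h5
  have h6 : (p : ℤ) ^ 3 ∣ S.num * ((m : ℤ) ^ p * ((p - 1).factorial : ℤ)) ^ m := by
    rw [h3]
    exact Dvd.dvd.mul_right hdvd _
  have h7 : IsCoprime ((p : ℤ) ^ 3) (((m : ℤ) ^ p * ((p - 1).factorial : ℤ)) ^ m) := by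
    apply IsCoprime.pow
    apply IsCoprime.mul_right
    · apply IsCoprime.pow_right
      rw [Nat.isCoprime_iff_coprime]
      exact (Nat.Prime.coprime_iff_not_dvd hp).2 hpm
    · rw [Nat.isCoprime_iff_coprime]
      exact (Nat.Prime.coprime_iff_not_dvd hp).2 (fun h => by
        have := (Nat.Prime.dvd_factorial hp).1 h
        have := hp.pos
        omega)
  exact h7.dvd_of_dvd_mul_right h6

end Pool.Agent.Results.MP_9b2749_nt.MthPowers
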